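import Mathlib
import Pool.Agent.N251.GA.Leaves

/-!
# GA/FOURTH: the inequality for the signature (4, 4) gives abc
-/

set_option autoImplicit false

namespace Pool.Agent.N482.GA.Fourth

open Pool.Agent.N251.GA

theorem unit_of_dvd_pow {R : Type} [CommRing R] {a b : R} (h : IsCoprime a b) (k : ℕ)
    (hd : a ∣ b ^ k) : IsUnit a :=
  (h.pow_right (n := k)).isUnit_of_dvd' dvd_rfl hd

theorem t : LeafFourth := by
  intro R _ D N hN h
  have := isDomain D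
  have := charZero D
  refine near D (2 * N) (by omega) ?_
  obtain ⟨C₁, hC₁, hlow⟩ := hom_lower
    (fun p => ((p.2 ^ 4 - 6 * p.1 ^ 2 * p.2 ^ 2 + p.1 ^ 4) + 4 * p.1 * p.2 * ((p.2 - p.1) * (p.1 + p.2))) ^ 4)
    (fun p => ((p.2 ^ 4 - 6 * p.1 ^ 2 * p.2 ^ 2 + p.1 ^ 4) - 4 * p.1 * p.2 * ((p.2 - p.1) * (p.1 + p.2))) ^ 4)
    (by fun_prop) (by fun_prop) 16 (by norm_num)
    (fun t p => by simp only [Prod.smul_fst, Prod.smul_snd, smul_eq_mul]; ring)
    (fun t p => by simp only [Prod.smul_fst, Prod.smul_snd, smul_eq_mul]; ring)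
    (by
      rintro ⟨x, y⟩ h1 h2
      simp only at h1 h2
      have h3 := (pow_eq_zero_iff (by norm_num)).1 h1
      have h4 := (pow_eq_zero_iff (by norm_num)).1 h2
      have h5 : y ^ 4 - 6 * x ^ 2 * y ^ 2 + x ^ 4 = 0 := by linear_combination (1 / 2) * h3 + (1 / 2) * h4
      have h6 : 4 * x * y * ((y - x) * (x + y)) = 0 := by linear_combination (1 / 2) * h3 - (1 / 2) * h4
      have h7 : (x ^ 2 + y ^ 2) ^ 4 = 0 := by
        linear_combination (y ^ 4 - 6 * x ^ 2 * y ^ 2 + x ^ 4) * h5 + (4 * x * y * ((y - x) * (x + y))) * h6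
      have h8 : x ^ 2 + y ^ 2 = 0 := (pow_eq_zero_iff (by norm_num)).1 h7
      have h9 : y ^ 4 = 0 := by linear_combination (1 / 8) * h5 - (1 / 8) * (x ^ 2 - 7 * y ^ 2) * h8
      have h10 : y = 0 := (pow_eq_zero_iff (by norm_num)).1 h9
      have h11 : x ^ 2 = 0 := by linear_combination h8 - y * h10
      have h12 : x = 0 := (pow_eq_zero_iff (by norm_num)).1 h11
      rw [h10, h12]; rfl)
  obtain ⟨C₂, hC₂, hup⟩ := hom_upper (fun p => (p.2 ^ 4 - 6 * p.1 ^ 2 * p.2 ^ 2 + p.1 ^ 4) *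
    (p.2 - p.1) * (p.1 ^ 2 + p.2 ^ 2)) (by fun_prop) 7
    (fun t p => by simp only [Prod.smul_fst, Prod.smul_snd, smul_eq_mul]; ring)
  set K : ℝ := 1 + 2 ^ 16 * C₁ + C₂ with hK
  refine transferTri D 16 7 K (by rw [hK]; nlinarith) (by norm_num) (by norm_num) ?_ h
  rintro ⟨a, b, c⟩ ht hdvd
  obtain ⟨hab, hsum, ha, hb, hc⟩ := ht
  simp only at hab hsum ha hb hc hdvd
  right
  have hc' : c = -(a + b) := by linear_combination hsum
  have hab0 : a + b ≠ 0 := by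
    intro h0; rw [hc', h0, neg_zero] at hc; exact hc rfl
  obtain ⟨r, hr⟩ := hdvd
  have h2a : ((2 : ℕ) : R) ∣ a := ⟨N * r, by rw [hr]; push_cast; ring⟩
  have hnu : ¬ IsUnit a := not_unit_of_dvd D le_rfl h2a
  obtain ⟨a₂, ha₂⟩ := h2a
  push_cast at ha₂
  set s : R := b ^ 4 - 6 * a ^ 2 * b ^ 2 + a ^ 4 with hs
  set T : R := 4 * a * b * ((b - a) * (a + b)) with hT
  set q : R := a ^ 2 + b ^ 2 with hq
  have hst : s ^ 2 + T ^ 2 = q ^ 4 := by rw [hs, hT, hq]; ring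
  have he0 : b - a ≠ 0 := by
    intro h0
    have h1 : b = a := sub_eq_zero.1 h0
    rw [h1] at hab
    exact hnu (isCoprime_self.1 hab)
  have hq0 : q ≠ 0 := by
    intro h0
    exact hnu (unit_of_dvd_pow hab 2 ⟨-a, by rw [hq] at h0; linear_combination h0⟩)
  have hs0 : s ≠ 0 := by
    intro h0
    exact hnu (unit_of_dvd_pow hab 4 ⟨6 * a * b ^ 2 - a ^ 3, by rw [hs] at h0; linear_combination h0⟩)
  have h4 : (4 : R) ≠ 0 := by exact_mod_cast (show (4 : ℕ) ≠ 0 by norm_num)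
  have h8 : (8 : R) ≠ 0 := by exact_mod_cast (show (8 : ℕ) ≠ 0 by norm_num)
  have hT0 : T ≠ 0 := mul_ne_zero (mul_ne_zero (mul_ne_zero h4 ha) hb) (mul_ne_zero he0 hab0)
  have hF : (s + T) ^ 4 - (s - T) ^ 4 = 8 * s * T * q ^ 4 := by rw [← hst]; ring
  have hne : (s + T) ^ 4 ≠ (s - T) ^ 4 := by
    intro h1
    rw [h1, sub_self] at hF
    exact (mul_ne_zero (mul_ne_zero (mul_ne_zero h8 hs0) hT0) (pow_ne_zero 4 hq0)) hF.symm
  -- coprimality
  have hcop : IsCoprime (s + T) (s - T) := by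
    apply isCoprime_of_max
    intro P hPm h1 h3
    have haP : a ∈ P → False := by
      intro h5
      have h6 : T ∈ P := by
        have e : T = a * (4 * b * ((b - a) * (a + b))) := by rw [hT]; ring
        rw [e]; exact P.mul_mem_right _ h5
      have h7 : s ∈ P := by
        have e : s = (s + T) - T := by ring
        rw [e]; exact P.sub_mem h1 h6
      have h9 : b ^ 4 ∈ P := by
        have e : b ^ 4 = s + a * (6 * a * b ^ 2 - a ^ 3) := by rw [hs]; ring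
        rw [e]; exact P.add_mem h7 (P.mul_mem_right _ h5)
      exact not_both hab hPm h5 (hPm.isPrime.mem_of_pow_mem _ h9)
    have h2P : (2 : R) ∈ P → False := fun h5 => haP (by rw [ha₂]; exact P.mul_mem_right _ h5)
    have h5 : 2 * s ∈ P := by
      have e : 2 * s = (s + T) + (s - T) := by ring
      rw [e]; exact P.add_mem h1 h3
    have hsP : s ∈ P := (hPm.isPrime.mem_or_mem h5).resolve_left h2P
    have hTP : T ∈ P := by
      have e : T = (s + T) - s := by ring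
      rw [e]; exact P.sub_mem h1 hsP
    have hqP : q ∈ P := by
      have h6 : q ^ 4 ∈ P := by
        rw [← hst, sq, sq]; exact P.add_mem (P.mul_mem_right _ hsP) (P.mul_mem_right _ hTP)
      exact hPm.isPrime.mem_of_pow_mem _ h6
    have h6 : 2 ^ 3 * (a ^ 2 * b ^ 2) ∈ P := by
      have e : 2 ^ 3 * (a ^ 2 * b ^ 2) = q * q - s := by rw [hq, hs]; ring
      rw [e]; exact P.sub_mem (P.mul_mem_right _ hqP) hsP
    rcases hPm.isPrime.mem_or_mem h6 with h7 | h7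
    · exact h2P (hPm.isPrime.mem_of_pow_mem _ h7)
    rcases hPm.isPrime.mem_or_mem h7 with h9 | h9
    · exact haP (hPm.isPrime.mem_of_pow_mem _ h9)
    · have hbP : b ∈ P := hPm.isPrime.mem_of_pow_mem _ h9
      have h10 : a ^ 2 ∈ P := by
        have e : a ^ 2 = q - b * b := by rw [hq]; ring
        rw [e]; exact P.sub_mem hqP (P.mul_mem_right _ hbP)
      exact haP (hPm.isPrime.mem_of_pow_mem _ h10)
  -- local sizes
  have hloc : ∀ i, ht D (a, b, c) i ≤ 2 * ‖(D.σ i a, D.σ i b)‖ := by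
    intro i
    rw [Prod.norm_def]
    simp only [ht]
    have h1 := le_max_left ‖D.σ i a‖ ‖D.σ i b‖
    have h3 := le_max_right ‖D.σ i a‖ ‖D.σ i b‖
    have h4 : ‖D.σ i c‖ ≤ ‖D.σ i a‖ + ‖D.σ i b‖ := by
      rw [hc', map_neg, norm_neg, map_add]; exact norm_add_le _ _
    have h5 : 0 ≤ ‖D.σ i a‖ := norm_nonneg _
    refine max_le (max_le ?_ ?_) ?_ <;> linarith
  have hnp : ∀ i, ‖(D.σ i a, D.σ i b)‖ ≤ ht D (a, b, c) i := by
    intro i
    rw [Prod.norm_def]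
    exact max_le (ht_ge1 D (a, b, c) i) (ht_ge2 D (a, b, c) i)
  refine ⟨(s + T, s - T), ⟨hcop, hne, ?_⟩, ?_, s * (b - a) * q, ?_, ?_, 6, ?_⟩
  · show ((N : ℕ) : R) ∣ (s + T) ^ 4 - (s - T) ^ 4
    rw [hF]
    refine ⟨8 * s * (8 * r * b * ((b - a) * (a + b))) * q ^ 4, ?_⟩
    rw [hT, hr]; push_cast; ring
  · intro i
    have h1 := hlow (D.σ i a, D.σ i b)
    simp only at h1
    have h3 : max ‖((D.σ i b ^ 4 - 6 * D.σ i a ^ 2 * D.σ i b ^ 2 + D.σ i a ^ 4) +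
          4 * D.σ i a * D.σ i b * ((D.σ i b - D.σ i a) * (D.σ i a + D.σ i b))) ^ 4‖
        ‖((D.σ i b ^ 4 - 6 * D.σ i a ^ 2 * D.σ i b ^ 2 + D.σ i a ^ 4) -
          4 * D.σ i a * D.σ i b * ((D.σ i b - D.σ i a) * (D.σ i a + D.σ i b))) ^ 4‖ =
        max (‖D.σ i (s + T)‖ ^ 4) (‖D.σ i (s - T)‖ ^ 4) := by
      rw [norm_pow, norm_pow]
      simp only [hs, hT, map_mul, map_pow, map_add, map_sub, map_ofNat]
    rw [h3] at h1
    calc ht D (a, b, c) i ^ 16 ≤ (2 * ‖(D.σ i a, D.σ i b)‖) ^ 16 :=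
          pow_le_pow_left₀ (ht_nonneg D _ i) (hloc i) 16
      _ = 2 ^ 16 * ‖(D.σ i a, D.σ i b)‖ ^ 16 := mul_pow _ _ _
      _ ≤ 2 ^ 16 * (C₁ * max (‖D.σ i (s + T)‖ ^ 4) (‖D.σ i (s - T)‖ ^ 4)) :=
          mul_le_mul_of_nonneg_left h1 (by norm_num)
      _ = 2 ^ 16 * C₁ * max (‖D.σ i (s + T)‖ ^ 4) (‖D.σ i (s - T)‖ ^ 4) := by ring
      _ ≤ _ := mul_le_mul_of_nonneg_right (by rw [hK]; linarith)
          (le_max_of_le_left (pow_nonneg (norm_nonneg _) _))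
  · exact mul_ne_zero (mul_ne_zero hs0 he0) hq0
  · intro i
    have h1 := hup (D.σ i a, D.σ i b)
    have e1 : D.σ i (s * (b - a) * q) = (D.σ i b ^ 4 - 6 * D.σ i a ^ 2 * D.σ i b ^ 2 + D.σ i a ^ 4) *
        (D.σ i b - D.σ i a) * (D.σ i a ^ 2 + D.σ i b ^ 2) := by
      simp only [hs, hq, map_mul, map_sub, map_add, map_pow, map_ofNat]
    rw [e1]
    calc _ ≤ C₂ * ‖(D.σ i a, D.σ i b)‖ ^ 7 := h1
      _ ≤ C₂ * ht D (a, b, c) i ^ 7 := by
          apply mul_le_mul_of_nonneg_left _ hC₂.le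
          exact pow_le_pow_left₀ (norm_nonneg _) (hnp i) 7
      _ ≤ _ := mul_le_mul_of_nonneg_right (by rw [hK]; nlinarith) (pow_nonneg (ht_nonneg D _ i) _)
  · show (s + T) ^ 4 - (s - T) ^ 4 ∣ (a * b * c * (s * (b - a) * q)) ^ 6
    rw [hF]
    refine ⟨a₂ ^ 5 * b ^ 5 * (a + b) ^ 5 * s ^ 5 * (b - a) ^ 5 * q ^ 2, ?_⟩
    have e1 : (a * b * c * (s * (b - a) * q)) ^ 6 = a * a ^ 5 * b ^ 6 * (a + b) ^ 6 * s ^ 6 *
        (b - a) ^ 6 * q ^ 6 := by rw [hc']; ring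
    have e2 : a ^ 5 = 32 * a₂ ^ 5 := by rw [ha₂]; ring
    rw [e1, e2, hT]
    ring

end Pool.Agent.N482.GA.Fourth
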